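import Pool.Agent.H33.G.R_seed8.H180R3.Task469E
import Pool.Agent.H33.G.R_seed8.H5R3.Task469A
import Pool.Agent.H33.G.R_seed8.H902R3.Task469C

set_option autoImplicit false

namespace Pool.Agent.H180R3.E469

theorem structA : Pool.Agent.H180R3.StructureLemma' := Pool.Agent.H5R3.T469A.structureLemma'

/-- Tasks A, C and E together: only task D is left. -/
theorem hoheisel_of_selbergShort (hD : Pool.Agent.H469R10.HO.SelbergShort) :
    Pool.Agent.H469R10.HO.Hoheisel :=
  hoheisel_of structA Pool.Agent.H902R3.C469.bt2 hD

end Pool.Agent.H180R3.E469
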