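import Pool.Agent.H33.G.R_seed8.H180R3.Struct
import Pool.Agent.H33.G.R_seed8.Helper601.Mertens

set_option autoImplicit false

open Finset

namespace Pool.Agent.H180R3.E469

/-- right ends of the multiplicative cells -/
noncomputable def E (h : ℝ) (i : ℕ) : ℕ := ⌊Real.exp (i * h)⌋₊

lemma E_le (h : ℝ) (i : ℕ) : (E h i : ℝ) ≤ Real.exp (i * h) := Nat.floor_le (Real.exp_pos _).le

lemma lt_E (h : ℝ) (i : ℕ) : Real.exp (i * h) < E h i + 1 := Nat.lt_floor_add_one _

lemma E_pos {h : ℝ} (hh : 0 ≤ h) (i : ℕ) : 1 ≤ E h i := by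
  refine Nat.le_floor ?_
  rw [Nat.cast_one]
  exact Real.one_le_exp (by positivity)

lemma half_le_E {h : ℝ} (hh : 0 ≤ h) (i : ℕ) : Real.exp (i * h) / 2 ≤ E h i := by
  have h1 := lt_E h i
  have h2 : (1:ℝ) ≤ E h i := by exact_mod_cast E_pos hh i
  linarith

lemma E_mono {h : ℝ} (hh : 0 ≤ h) {i j : ℕ} (hij : i ≤ j) : E h i ≤ E h j :=
  Nat.floor_le_floor (Real.exp_le_exp.2 (by gcongr))

lemma log_E_le {h : ℝ} (hh : 0 ≤ h) (i : ℕ) : Real.log (E h i) ≤ i * h := by
  have h2 : (1:ℝ) ≤ E h i := by exact_mod_cast E_pos hh i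
  have := Real.log_le_log (by linarith) (E_le h i)
  rwa [Real.log_exp] at this

lemma le_log_E {h : ℝ} (hh : 0 ≤ h) (i : ℕ) : i * h - Real.log 2 ≤ Real.log (E h i) := by
  have := Real.log_le_log (by positivity) (half_le_E hh i)
  rwa [Real.log_div (Real.exp_pos _).ne' (by norm_num), Real.log_exp] at this

/-- primes of a cell -/
noncomputable def C (h : ℝ) (i : ℕ) : Finset ℕ := (Ioc (E h i) (E h (i + 1))).filter Nat.Prime

lemma mem_C_iff {h : ℝ} {i p : ℕ} :
    p ∈ C h i ↔ p.Prime ∧ Real.exp (i * h) < p ∧ (p : ℝ) ≤ Real.exp ((i + 1) * h) := by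
  rw [C, mem_filter, mem_Ioc, E, E, Nat.floor_lt (Real.exp_pos _).le,
    Nat.le_floor_iff (Real.exp_pos _).le]
  push_cast
  tauto

/-- normalised mass of a cell -/
noncomputable def f (h : ℝ) (i : ℕ) : ℝ := (∑ p ∈ C h i, Real.log p / p) / (2 * h)

lemma logdiv_nonneg (p : ℕ) : 0 ≤ Real.log p / p := div_nonneg (Real.log_natCast_nonneg p) (Nat.cast_nonneg p)

lemma f_nonneg {h : ℝ} (hh : 0 < h) (i : ℕ) : 0 ≤ f h i :=
  div_nonneg (sum_nonneg fun p _ => logdiv_nonneg p) (by positivity)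

lemma sum_eq_f {h : ℝ} (hh : 0 < h) (i : ℕ) : ∑ p ∈ C h i, Real.log p / p = 2 * h * f h i := by
  rw [f]; field_simp

lemma sum_cells {h : ℝ} (hh : 0 ≤ h) (g : ℕ → ℝ) {a b : ℕ} (hab : a ≤ b) :
    ∑ i ∈ Ico a b, ∑ p ∈ C h i, g p = ∑ p ∈ (Ioc (E h a) (E h b)).filter Nat.Prime, g p := by
  induction b, hab using Nat.le_induction with
  | base => simp
  | succ b hb ih =>
    rw [sum_Ico_succ_top hb, ih, C, ← sum_union]
    · congr 1
      rw [← filter_union, Ioc_union_Ioc_eq_Ioc (E_mono hh hb) (E_mono hh b.le_succ)]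
    · refine disjoint_filter_filter ?_
      rw [disjoint_left]
      intro x hx hx'
      rw [mem_Ioc] at hx hx'
      omega

lemma sum_f {h : ℝ} (hh : 0 < h) {a b : ℕ} (hab : a ≤ b) :
    ∑ i ∈ Ico a b, f h i =
      (∑ p ∈ (Ioc (E h a) (E h b)).filter Nat.Prime, Real.log p / p) / (2 * h) := by
  rw [← sum_cells hh.le _ hab, sum_div]
  rfl

lemma mertens_cells : ∃ C₁ : ℝ, 0 < C₁ ∧ ∀ h : ℝ, 0 < h → ∀ a b : ℕ, a ≤ b →
    |∑ i ∈ Ico a b, f h i - ((b : ℝ) - a) / 2| ≤ C₁ / h := by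
  obtain ⟨D, hD⟩ := Pool.Agent.Helper601.Mertens.mertens_log
  have hD0 : 0 ≤ D := le_trans (abs_nonneg _) (hD 1 le_rfl)
  refine ⟨D + Real.log 2, by have := Real.log_pos (x := 2) (by norm_num); linarith, ?_⟩
  intro h hh a b hab
  rw [sum_f hh hab]
  have hsplit : ∑ p ∈ (Ioc (E h a) (E h b)).filter Nat.Prime, Real.log p / p =
      ∑ p ∈ (Icc 1 (E h b)).filter Nat.Prime, Real.log p / p -
      ∑ p ∈ (Icc 1 (E h a)).filter Nat.Prime, Real.log p / p := by
    rw [eq_sub_iff_add_eq, ← sum_union]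
    · congr 1
      rw [← filter_union]
      congr 1
      ext x
      have := E_mono hh.le hab
      have := E_pos hh.le a
      simp only [mem_union, mem_Ioc, mem_Icc]
      omega
    · refine disjoint_filter_filter ?_
      rw [disjoint_left]
      intro x hx hx'
      rw [mem_Ioc] at hx
      rw [mem_Icc] at hx'
      omega
  have h1 := abs_le.1 (hD (E h b) (E_pos hh.le b))
  have h2 := abs_le.1 (hD (E h a) (E_pos hh.le a))
  have h3 := log_E_le hh.le a
  have h4 := log_E_le hh.le b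
  have h5 := le_log_E hh.le a
  have h6 := le_log_E hh.le b
  have key : ∀ S : ℝ, |S - (b - a) * h| ≤ 2 * (D + Real.log 2) →
      |S / (2 * h) - ((b : ℝ) - a) / 2| ≤ (D + Real.log 2) / h := by
    intro S hS
    have : S / (2 * h) - ((b : ℝ) - a) / 2 = (S - (b - a) * h) / (2 * h) := by
      field_simp
    rw [this, abs_div, abs_of_pos (show (0:ℝ) < 2 * h by positivity), div_le_div_iff₀ (by positivity) hh]
    nlinarith
  apply key
  rw [hsplit, abs_le]
  have := Real.log_pos (x := 2) (by norm_num)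
  constructor <;> linarith [h1.1, h1.2, h2.1, h2.2]

end Pool.Agent.H180R3.E469
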