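import Pool.Agent.H33.G.R_seed8.H180R3.E469a

set_option autoImplicit false

open Finset

namespace Pool.Agent.H180R3.E469

noncomputable def idx (h : ℝ) (p : ℕ) : ℕ := ⌈Real.log p / h⌉₊ - 1

lemma mem_C_idx {h : ℝ} (hh : 0 < h) {p : ℕ} (hp : p.Prime) : p ∈ C h (idx h p) := by
  have hp2 : (2:ℝ) ≤ p := by exact_mod_cast hp.two_le
  have hlog : 0 < Real.log p := Real.log_pos (by linarith)
  have hc : 0 < ⌈Real.log p / h⌉₊ := Nat.ceil_pos.2 (by positivity)
  have h1 : ((idx h p : ℕ) : ℝ) + 1 = ⌈Real.log p / h⌉₊ := by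
    rw [idx, Nat.cast_sub hc]; simp
  have h2 : ((idx h p : ℕ) : ℝ) < Real.log p / h := by
    have := Nat.ceil_lt_add_one (show 0 ≤ Real.log p / h by positivity)
    linarith
  have h3 : Real.log p / h ≤ ((idx h p : ℕ) : ℝ) + 1 := by
    rw [h1]; exact Nat.le_ceil _
  rw [mem_C_iff]
  refine ⟨hp, ?_, ?_⟩
  · rw [lt_div_iff₀ hh] at h2
    rwa [← Real.lt_log_iff_exp_lt (by linarith)]
  · rw [div_le_iff₀ hh] at h3
    rwa [← Real.log_le_iff_le_exp (by linarith)]

lemma pairs_le {h : ℝ} (hh : 0 < h) (k M : ℕ) :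
    ∑ x ∈ (range (E h (k + M) + 1) ×ˢ range (E h (k + M) + 1)).filter
        (fun x : ℕ × ℕ => x.1.Prime ∧ x.2.Prime ∧ E h k < x.1 * x.2 ∧ x.1 * x.2 ≤ E h (k + M)),
        Real.log x.1 * Real.log x.2 ≤
      Real.exp ((k + M : ℕ) * h) * (4 * h ^ 2) *
        ∑ m ∈ Icc (k - 1) (k + M - 1), ∑ i ∈ range (m + 1), f h i * f h (m - i) := by
  classical
  set S := (range (E h (k + M) + 1) ×ˢ range (E h (k + M) + 1)).filter
        (fun x : ℕ × ℕ => x.1.Prime ∧ x.2.Prime ∧ E h k < x.1 * x.2 ∧ x.1 * x.2 ≤ E h (k + M)) with hS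
  set e := Real.exp ((k + M : ℕ) * h) with he
  have he0 : 0 < e := Real.exp_pos _
  have hmem : ∀ x ∈ S, x.1 ∈ C h (idx h x.1) ∧ x.2 ∈ C h (idx h x.2) ∧
      idx h x.1 + idx h x.2 ∈ Icc (k - 1) (k + M - 1) ∧ (x.1 : ℝ) * x.2 ≤ e := by
    intro x hx
    rw [hS, mem_filter] at hx
    obtain ⟨-, hp, hq, h1, h2⟩ := hx
    have hpC := mem_C_idx hh hp
    have hqC := mem_C_idx hh hq
    refine ⟨hpC, hqC, ?_, ?_⟩
    · rw [mem_C_iff] at hpC hqC
      have hup : (x.1 : ℝ) * x.2 ≤ Real.exp ((k + M : ℕ) * h) := by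
        have : ((x.1 * x.2 : ℕ) : ℝ) ≤ E h (k + M) := by exact_mod_cast h2
        rw [Nat.cast_mul] at this
        exact this.trans (E_le _ _)
      have hlo : Real.exp (k * h) < (x.1 : ℝ) * x.2 := by
        rw [E, Nat.floor_lt (Real.exp_pos _).le] at h1
        rwa [Nat.cast_mul] at h1
      have hprod1 : Real.exp ((idx h x.1 : ℕ) * h) * Real.exp ((idx h x.2 : ℕ) * h) <
          (x.1 : ℝ) * x.2 :=
        mul_lt_mul'' hpC.2.1 hqC.2.1 (Real.exp_pos _).le (Real.exp_pos _).le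
      have hprod2 : (x.1 : ℝ) * x.2 ≤
          Real.exp (((idx h x.1 : ℕ) + 1) * h) * Real.exp (((idx h x.2 : ℕ) + 1) * h) :=
        mul_le_mul hpC.2.2 hqC.2.2 (Nat.cast_nonneg _) (Real.exp_pos _).le
      rw [← Real.exp_add] at hprod1 hprod2
      have h3 := Real.exp_lt_exp.1 (hprod1.trans_le hup)
      have h4 := Real.exp_lt_exp.1 (hlo.trans_le hprod2)
      have h5 : ((idx h x.1 : ℕ) : ℝ) + (idx h x.2 : ℕ) < (k + M : ℕ) := by
        have : (((idx h x.1 : ℕ) : ℝ) + (idx h x.2 : ℕ)) * h < (k + M : ℕ) * h := by linarith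
        exact lt_of_mul_lt_mul_right this hh.le
      have h6 : (k : ℝ) < ((idx h x.1 : ℕ) : ℝ) + 1 + ((idx h x.2 : ℕ) + 1) := by
        have : (k : ℝ) * h < (((idx h x.1 : ℕ) : ℝ) + 1 + ((idx h x.2 : ℕ) + 1)) * h := by linarith
        exact lt_of_mul_lt_mul_right this hh.le
      have h5' : idx h x.1 + idx h x.2 < k + M := by exact_mod_cast h5
      have h6' : k < idx h x.1 + 1 + (idx h x.2 + 1) := by exact_mod_cast h6
      rw [mem_Icc]
      omega
    · have : ((x.1 * x.2 : ℕ) : ℝ) ≤ E h (k + M) := by exact_mod_cast h2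
      rw [Nat.cast_mul] at this
      exact this.trans (E_le _ _)
  -- pointwise comparison
  have hpt : ∀ x ∈ S, Real.log x.1 * Real.log x.2 ≤
      e * ((Real.log x.1 / x.1) * (Real.log x.2 / x.2)) := by
    intro x hx
    obtain ⟨h1, h2, -, h4⟩ := hmem x hx
    rw [mem_C_iff] at h1 h2
    have hp : (0:ℝ) < x.1 := by exact_mod_cast h1.1.pos
    have hq : (0:ℝ) < x.2 := by exact_mod_cast h2.1.pos
    have hl : 0 ≤ Real.log x.1 * Real.log x.2 :=
      mul_nonneg (Real.log_natCast_nonneg _) (Real.log_natCast_nonneg _)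
    have : e * ((Real.log x.1 / x.1) * (Real.log x.2 / x.2)) =
        (Real.log x.1 * Real.log x.2) * (e / (x.1 * x.2)) := by
      field_simp
    rw [this]
    have h5 : 1 ≤ e / ((x.1:ℝ) * x.2) := by
      rw [le_div_iff₀ (by positivity)]; linarith
    exact le_mul_of_one_le_right hl h5
  refine (sum_le_sum hpt).trans ?_
  rw [← mul_sum, mul_assoc]
  refine mul_le_mul_of_nonneg_left ?_ he0.le
  rw [← sum_fiberwise_of_maps_to (s := S) (t := Icc (k - 1) (k + M - 1))
    (g := fun x => idx h x.1 + idx h x.2) (fun x hx => (hmem x hx).2.2.1), mul_sum]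
  refine sum_le_sum fun m hm => ?_
  rw [← sum_fiberwise_of_maps_to (s := S.filter fun x => idx h x.1 + idx h x.2 = m)
    (t := range (m + 1)) (g := fun x => idx h x.1)
    (fun x hx => by rw [mem_filter] at hx; rw [mem_range]; omega), mul_sum]
  refine sum_le_sum fun i hi => ?_
  have hsub : (S.filter fun x => idx h x.1 + idx h x.2 = m).filter (fun x => idx h x.1 = i) ⊆
      C h i ×ˢ C h (m - i) := by
    intro x hx
    rw [mem_filter, mem_filter] at hx
    obtain ⟨⟨hxS, hm'⟩, hi'⟩ := hx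
    obtain ⟨h1, h2, -, -⟩ := hmem x hxS
    rw [mem_product]
    refine ⟨hi' ▸ h1, ?_⟩
    have : m - i = idx h x.2 := by omega
    rw [this]; exact h2
  calc _ ≤ ∑ x ∈ C h i ×ˢ C h (m - i), (Real.log x.1 / x.1) * (Real.log x.2 / x.2) :=
        sum_le_sum_of_subset_of_nonneg hsub fun x _ _ => mul_nonneg (logdiv_nonneg _) (logdiv_nonneg _)
    _ = (2 * h * f h i) * (2 * h * f h (m - i)) := by
        rw [← sum_eq_f hh, ← sum_eq_f hh, sum_mul_sum, sum_product]
    _ = _ := by ring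

lemma removed_le (f : ℕ → ℝ) (hf0 : ∀ i, 0 ≤ f i) (c : ℝ) (m : ℕ) (B S : ℝ) (hB0 : 0 ≤ B)
    (hB : ∀ i : ℕ, (i : ℝ) < c → i ≤ m → f (m - i) ≤ B) (hS : ∑ i ∈ range ⌈c⌉₊, f i ≤ S) :
    ∑ i ∈ range (m + 1), f i * f (m - i) ≤
      ∑ i ∈ (range (m + 1)).filter (fun i : ℕ => c ≤ i ∧ c ≤ (m : ℝ) - i), f i * f (m - i) +
        2 * B * S := by
  have h1 : ∑ i ∈ range (m + 1), (if (i : ℝ) < c then f i * f (m - i) else 0) ≤ B * S := by
    calc ∑ i ∈ range (m + 1), (if (i : ℝ) < c then f i * f (m - i) else 0)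
        ≤ ∑ i ∈ range (m + 1), (if (i : ℝ) < c then B * f i else 0) := by
          refine sum_le_sum fun i hi => ?_
          split_ifs with hc
          · rw [mul_comm]
            exact mul_le_mul_of_nonneg_right (hB i hc (by rw [mem_range] at hi; omega)) (hf0 i)
          · exact le_rfl
      _ = ∑ i ∈ (range (m + 1)).filter (fun i : ℕ => (i : ℝ) < c), B * f i := by
          rw [sum_filter]
      _ ≤ ∑ i ∈ range ⌈c⌉₊, B * f i := by
          refine sum_le_sum_of_subset_of_nonneg ?_ fun i _ _ => mul_nonneg hB0 (hf0 i)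
          intro i hi
          rw [mem_filter] at hi
          rw [mem_range, Nat.lt_ceil]
          exact hi.2
      _ = B * ∑ i ∈ range ⌈c⌉₊, f i := by rw [mul_sum]
      _ ≤ B * S := mul_le_mul_of_nonneg_left hS hB0
  have h2 : ∑ i ∈ range (m + 1), (if (m : ℝ) - i < c then f i * f (m - i) else 0) ≤ B * S := by
    rw [← sum_flip] 
    refine le_trans (le_of_eq (sum_congr rfl fun i hi => ?_)) h1
    rw [mem_range] at hi
    have hi' : i ≤ m := by omega
    have e1 : m - (m - i) = i := by omega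
    rw [Nat.cast_sub hi', e1]
    have e2 : (m : ℝ) - (m - i) = i := by ring
    rw [e2, mul_comm (f (m - i))]
  have h3 : ∑ i ∈ range (m + 1), f i * f (m - i) ≤
      ∑ i ∈ range (m + 1), ((if c ≤ (i : ℝ) ∧ c ≤ (m : ℝ) - i then f i * f (m - i) else 0) +
        (if (i : ℝ) < c then f i * f (m - i) else 0) +
        (if (m : ℝ) - i < c then f i * f (m - i) else 0)) := by
    refine sum_le_sum fun i _ => ?_
    have h0 : 0 ≤ f i * f (m - i) := mul_nonneg (hf0 _) (hf0 _)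
    by_cases ha : (i : ℝ) < c
    · have hna : ¬ (c ≤ (i : ℝ) ∧ c ≤ (m : ℝ) - i) := fun h => absurd h.1 (not_le.2 ha)
      rw [if_neg hna, if_pos ha]
      split_ifs <;> linarith
    · by_cases hb : (m : ℝ) - i < c
      · have hna : ¬ (c ≤ (i : ℝ) ∧ c ≤ (m : ℝ) - i) := fun h => absurd h.2 (not_le.2 hb)
        rw [if_neg hna, if_neg ha, if_pos hb]; linarith
      · rw [if_pos ⟨not_lt.1 ha, not_lt.1 hb⟩, if_neg ha, if_neg hb]; linarith
  rw [sum_add_distrib, sum_add_distrib, ← sum_filter] at h3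
  linarith

end Pool.Agent.H180R3.E469
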