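import Pool.Agent.H33.G.R_seed8.H469R10.HO.Stmts

set_option autoImplicit false

open Finset

namespace Pool.Agent.H180R3

/-- Variant of `StructureLemma` with `ε ≤ 1/100` and slack `5 ε` in the quadratic hypothesis. -/
def StructureLemma' : Prop := ∃ (ε η : ℝ) (M N₀ : ℕ), 0 < ε ∧ ε ≤ 1 / 100 ∧ 0 < η ∧ 0 < M ∧
  ∀ N : ℕ, N₀ ≤ N → ∀ f : ℕ → ℝ, (∀ i, 0 ≤ f i) →
    (∀ i : ℕ, ε * N ≤ i → i ≤ N → f i ≤ 1 + ε) →
    (∀ a b : ℕ, ε * N ≤ a → a ≤ b → b ≤ N → |∑ i ∈ Ico a b, f i - ((b:ℝ) - a) / 2| ≤ ε * N) →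
    (∀ K : ℕ, (N:ℝ) / 2 ≤ K → K + M ≤ N →
      (1 / 2 - 5 * ε) * K * M - K / 2 * ∑ i ∈ Ico K (K + M), f i ≤
        ∑ m ∈ Icc (K - 1) (K + M - 1),
          ∑ i ∈ (range (m + 1)).filter (fun i : ℕ => ε * N ≤ i ∧ ε * N ≤ (m : ℝ) - i), f i * f (m - i)) →
    ∀ K : ℕ, (1 - ε) * N ≤ K → K + M ≤ N → η * M ≤ ∑ i ∈ Ico K (K + M), f i

/-- The variant implies the posted form. -/
theorem structureLemma_of_prime (h : StructureLemma') : Pool.Agent.H469R10.HO.StructureLemma := by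
  obtain ⟨ε, η, M, N₀, hε, -, hη, hM, H⟩ := h
  refine ⟨ε, η, M, N₀, hε, hη, hM, fun N hN f h0 h1 h2 h3 K hK hKM => ?_⟩
  refine H N hN f h0 h1 h2 (fun K hK hKM => le_trans ?_ (h3 K hK hKM)) K hK hKM
  have : (0:ℝ) ≤ ε * K * M := by positivity
  nlinarith

end Pool.Agent.H180R3
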